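import Pool.Agent.H867.FT.Gen

set_option autoImplicit false

namespace Pool.Agent.H975.FTPow

open Pool.Agent.H867.FT

section

variable {P K : Type} [CommRing P] [Field K] [Algebra P K]

/-- `P + P x + ... + P x^n` -/
abbrev Mn (P : Type) {K : Type} [CommRing P] [Field K] [Algebra P K] (x : K) (n : ℕ) :
    Submodule P K :=
  Submodule.span P (Set.range fun i : Fin (n + 1) => x ^ (i : ℕ))

theorem pow_mem (x : K) {n i : ℕ} (hi : i ≤ n) : x ^ i ∈ Mn P x n :=
  Submodule.subset_span ⟨⟨i, by omega⟩, rfl⟩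

theorem coe_mul_mem (x : K) {n : ℕ} (p : P) {z : K} (hz : z ∈ Mn P x n) :
    algebraMap P K p * z ∈ Mn P x n := by
  rw [← Algebra.smul_def]
  exact Submodule.smul_mem _ p hz

theorem stable (x : K) (n : ℕ) (s : K) (h : ∀ i ≤ n, s * x ^ i ∈ Mn P x n) {z : K}
    (hz : z ∈ Mn P x n) : s * z ∈ Mn P x n := by
  induction hz using Submodule.span_induction with
  | mem z hz =>
    obtain ⟨i, rfl⟩ := hz
    exact h i (by omega)
  | zero => rw [mul_zero]; exact Submodule.zero_mem _
  | add y z _ _ hy hz => rw [mul_add]; exact Submodule.add_mem _ hy hz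
  | smul p z _ hz =>
    rw [mul_smul_comm]
    exact Submodule.smul_mem _ p hz

end

theorem pow : S_POW := by
  intro P R K _ _ _ _ _ _ _ _ _ _ C a b c d x y₀ ω θ hy0 hF hω hθ hR hC n hn y
  -- stability under `ω`
  have sω : ∀ z ∈ Mn P x n, algebraMap R K ω * z ∈ Mn P x n := by
    intro z hz
    refine stable x n _ (fun i hi => ?_) hz
    rcases Nat.lt_or_ge i n with h | h
    · have e : algebraMap R K ω * x ^ i = algebraMap P K a * x ^ (i + 1) := by
        rw [hω, pow_succ]; ring
      rw [e]
      exact coe_mul_mem x a (pow_mem x h)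
    · obtain ⟨k, rfl⟩ : ∃ k, i = k + 2 := ⟨i - 2, by omega⟩
      have e : algebraMap R K ω * x ^ (k + 2) = - (algebraMap P K b * x ^ (k + 2) +
          algebraMap P K c * x ^ (k + 1) + algebraMap P K d * x ^ k) := by
        rw [hω]
        linear_combination x ^ k * hF
      rw [e]
      refine Submodule.neg_mem _ (Submodule.add_mem _ (Submodule.add_mem _ ?_ ?_) ?_)
      · exact coe_mul_mem x b (pow_mem x hi)
      · exact coe_mul_mem x c (pow_mem x (by omega))
      · exact coe_mul_mem x d (pow_mem x (by omega))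
  -- stability under `θ`
  have sθ : ∀ z ∈ Mn P x n, algebraMap R K θ * z ∈ Mn P x n := by
    intro z hz
    refine stable x n _ (fun i hi => ?_) hz
    rcases Nat.eq_zero_or_pos i with h | h
    · subst h
      have e : algebraMap R K θ * x ^ 0 = algebraMap P K a * x ^ 2 + algebraMap P K b * x ^ 1 +
          algebraMap P K c * x ^ 0 := by
        rw [hθ]; ring
      rw [e]
      refine Submodule.add_mem _ (Submodule.add_mem _ ?_ ?_) ?_
      · exact coe_mul_mem x a (pow_mem x hn)
      · exact coe_mul_mem x b (pow_mem x (by omega))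
      · exact coe_mul_mem x c (pow_mem x (by omega))
    · obtain ⟨k, rfl⟩ : ∃ k, i = k + 1 := ⟨i - 1, by omega⟩
      have e : algebraMap R K θ * x ^ (k + 1) = - (algebraMap P K d * x ^ k) := by
        rw [hθ]
        linear_combination x ^ k * hF
      rw [e]
      exact Submodule.neg_mem _ (coe_mul_mem x d (pow_mem x (by omega)))
  have sR : ∀ (r : R) (z : K), z ∈ Mn P x n → algebraMap R K r * z ∈ Mn P x n := by
    intro r z hz
    obtain ⟨r₀, r₁, r₂, hr⟩ := hR r
    have e : algebraMap R K r * z = algebraMap P K r₀ * z +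
        algebraMap P K r₁ * (algebraMap R K ω * z) + algebraMap P K r₂ * (algebraMap R K θ * z) := by
      rw [hr, map_add, map_add, Algebra.smul_def, Algebra.smul_def, map_mul, map_mul,
        ← IsScalarTower.algebraMap_apply, ← IsScalarTower.algebraMap_apply,
        ← IsScalarTower.algebraMap_apply]
      ring
    rw [e]
    refine Submodule.add_mem _ (Submodule.add_mem _ ?_ ?_) ?_
    · exact coe_mul_mem x _ hz
    · exact coe_mul_mem x _ (sω z hz)
    · exact coe_mul_mem x _ (sθ z hz)
  -- the `R`-submodule `y₀ ^ n * M_n`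
  let N : Submodule R K :=
    { carrier := {y | ∃ m ∈ Mn P x n, y = y₀ ^ n * m}
      zero_mem' := ⟨0, Submodule.zero_mem _, by simp⟩
      add_mem' := by
        rintro u v ⟨m, hm, rfl⟩ ⟨m', hm', rfl⟩
        exact ⟨m + m', Submodule.add_mem _ hm hm', by ring⟩
      smul_mem' := by
        rintro r u ⟨m, hm, rfl⟩
        refine ⟨algebraMap R K r * m, sR r m hm, ?_⟩
        rw [Algebra.smul_def]; ring }
  -- `C = R y₀ + R y₀ x`
  have hC1 : C ≤ Submodule.span R {y₀, y₀ * x} := by
    intro z hz
    obtain ⟨g₀, g₁, g₂, rfl⟩ := (hC z).1 hz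
    have e : y₀ * (algebraMap P K g₀ + algebraMap P K g₁ * x + algebraMap P K g₂ *
        algebraMap R K θ) = (algebraMap P R g₀ + algebraMap P R g₂ * θ) • y₀ +
        (algebraMap P R g₁) • (y₀ * x) := by
      rw [Algebra.smul_def, Algebra.smul_def, map_add, map_mul, ← IsScalarTower.algebraMap_apply,
        ← IsScalarTower.algebraMap_apply, ← IsScalarTower.algebraMap_apply]
      ring
    rw [e]
    exact Submodule.add_mem _ (Submodule.smul_mem _ _ (Submodule.subset_span (by simp)))
      (Submodule.smul_mem _ _ (Submodule.subset_span (by simp)))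
  have hCn : ∀ k : ℕ, C ^ k ≤ Submodule.span R {z | ∃ i ≤ k, z = y₀ ^ k * x ^ i} := by
    intro k
    induction k with
    | zero =>
      rw [pow_zero, Submodule.one_eq_span]
      apply Submodule.span_mono
      rintro z rfl
      exact ⟨0, le_rfl, by simp⟩
    | succ k ih =>
      rw [pow_succ]
      refine (mul_le_mul' ih hC1).trans ?_
      rw [Submodule.span_mul_span, Submodule.span_le]
      rintro z ⟨u, ⟨i, hi, rfl⟩, v, hv, rfl⟩
      rcases hv with hv | hv
      · refine Submodule.subset_span ⟨i, by omega, ?_⟩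
        show y₀ ^ k * x ^ i * v = _
        rw [hv]
        ring
      · rw [Set.mem_singleton_iff] at hv
        subst hv
        exact Submodule.subset_span ⟨i + 1, by omega,
          by show y₀ ^ k * x ^ i * (y₀ * x) = _; ring⟩
  constructor
  · intro hy
    have h1 : Submodule.span R {z | ∃ i ≤ n, z = y₀ ^ n * x ^ i} ≤ N := by
      rw [Submodule.span_le]
      rintro z ⟨i, hi, rfl⟩
      exact ⟨x ^ i, pow_mem x hi, rfl⟩
    exact h1 (hCn n hy)
  · rintro ⟨m, hm, rfl⟩
    have c0 : y₀ ∈ C := (hC y₀).2 ⟨1, 0, 0, by simp⟩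
    have c1 : y₀ * x ∈ C := (hC _).2 ⟨0, 1, 0, by simp⟩
    induction hm using Submodule.span_induction with
    | mem z hz =>
      obtain ⟨i, rfl⟩ := hz
      have hi : (i : ℕ) ≤ n := by omega
      have e : y₀ ^ n * x ^ (i : ℕ) = y₀ ^ (n - i) * (y₀ * x) ^ (i : ℕ) := by
        have : y₀ ^ n = y₀ ^ (n - i) * y₀ ^ (i : ℕ) := by rw [← pow_add, Nat.sub_add_cancel hi]
        rw [this, mul_pow]; ring
      show y₀ ^ n * x ^ (i : ℕ) ∈ C ^ n
      rw [e]
      have h2 : C ^ n = C ^ (n - i) * C ^ (i : ℕ) := by rw [← pow_add, Nat.sub_add_cancel hi]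
      rw [h2]
      exact Submodule.mul_mem_mul (Submodule.pow_mem_pow C c0 _) (Submodule.pow_mem_pow C c1 _)
    | zero => rw [mul_zero]; exact Submodule.zero_mem _
    | add u v _ _ hu hv => rw [mul_add]; exact Submodule.add_mem _ hu hv
    | smul p z _ hz =>
      rw [mul_smul_comm, ← algebraMap_smul R p]
      exact Submodule.smul_mem _ _ hz

end Pool.Agent.H975.FTPow

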