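import Pool.Agent.H638.GM.StmB

set_option autoImplicit false

open MeasureTheory Set Filter Topology
open scoped ENNReal NNReal

namespace Pool.Agent.H975.GMBGUP

open Pool.Agent.H638.GM

theorem lam_pos (k : ℕ) : 0 < lam k := by
  unfold lam
  positivity

theorem Q_eq (d : ℕ) : Q d = Icc (0 : V d) 1 := by
  ext x
  simp only [Q, mem_ofPred_eq, mem_Icc, Pi.le_def, Pi.zero_apply, Pi.one_apply]
  exact forall_and

theorem haus_Q (d : ℕ) : μH[(d : ℝ)] (Q d) = 1 := by
  have h := hausdorffMeasure_pi_real (ι := Fin d)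
  rw [Fintype.card_fin] at h
  rw [h, Q_eq, Real.volume_Icc_pi]
  simp

theorem diag_lip (d : ℕ) : LipschitzWith 1 (fun x : V d => (x, x)) := by
  simpa using (LipschitzWith.id (α := V d)).prodMk (LipschitzWith.id (α := V d))

theorem emb_lip {d : ℕ} (k : ℕ) : LipschitzWith (lam k).toNNReal (emb (d := d) k) := by
  refine LipschitzWith.of_dist_le_mul fun x y => ?_
  rw [Real.coe_toNNReal _ (lam_pos k).le]
  unfold emb
  rw [dist_add_left, dist_smul₀, Real.norm_of_nonneg (lam_pos k).le]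

theorem map_lip {d : ℕ} (k : ℕ) :
    LipschitzWith (lam k).toNNReal (fun p : V d × V d => (emb k p.1, emb k p.2)) := by
  refine LipschitzWith.of_dist_le_mul fun p q => ?_
  rw [Prod.dist_eq, Prod.dist_eq, mul_max_of_nonneg _ _ (NNReal.coe_nonneg _)]
  exact max_le_max ((emb_lip k).dist_le_mul _ _) ((emb_lip k).dist_le_mul _ _)

theorem U_sub (d : ℕ) : U d ⊆ Q d := fun _ hx i => ⟨(hx i).1.le, (hx i).2.le⟩

theorem main : S_GUP := by
  intro d hd f hf G hG
  have hsub : gr G ⊆ ((fun x : V d => (x, x)) '' (Q d)) ∪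
      ⋃ k, (fun p : V d × V d => (emb k p.1, emb k p.2)) '' (gr (f k)) := by
    intro p hp
    by_cases h : ∃ k, ∃ u ∈ U d, p.1 = emb k u
    · obtain ⟨k, u, hu, hpu⟩ := h
      refine Or.inr (mem_iUnion.2 ⟨k, (u, f k u), ⟨U_sub d hu, rfl⟩, ?_⟩)
      have h2 : p.2 = emb k (f k u) := by
        rw [hp.2, hpu]
        exact hG.1 k u hu
      exact Prod.ext hpu.symm h2.symm
    · push Not at h
      refine Or.inl ⟨p.1, hp.1, ?_⟩
      have h2 : p.2 = p.1 := by
        rw [hp.2]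
        exact hG.2 p.1 h
      exact Prod.ext rfl h2.symm
  have h1 : μH[(d : ℝ)] ((fun x : V d => (x, x)) '' (Q d)) ≤ 1 := by
    have h2 := (diag_lip d).hausdorffMeasure_image_le (d := (d : ℝ)) (Nat.cast_nonneg _) (Q d)
    rw [haus_Q] at h2
    simpa using h2
  have h2 : ∀ k, μH[(d : ℝ)] ((fun p : V d × V d => (emb k p.1, emb k p.2)) '' (gr (f k))) ≤
      ENNReal.ofReal (lam k) ^ d * μH[(d : ℝ)] (gr (f k)) := by
    intro k
    have h3 := (map_lip (d := d) k).hausdorffMeasure_image_le (d := (d : ℝ)) (Nat.cast_nonneg _)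
      (gr (f k))
    rw [ENNReal.rpow_natCast] at h3
    exact h3
  calc μH[(d : ℝ)] (gr G) ≤ μH[(d : ℝ)] (((fun x : V d => (x, x)) '' (Q d)) ∪
      ⋃ k, (fun p : V d × V d => (emb k p.1, emb k p.2)) '' (gr (f k))) := measure_mono hsub
    _ ≤ μH[(d : ℝ)] ((fun x : V d => (x, x)) '' (Q d)) +
        μH[(d : ℝ)] (⋃ k, (fun p : V d × V d => (emb k p.1, emb k p.2)) '' (gr (f k))) :=
      measure_union_le _ _
    _ ≤ 1 + ∑' k, ENNReal.ofReal (lam k) ^ d * μH[(d : ℝ)] (gr (f k)) :=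
      add_le_add h1 ((measure_iUnion_le _).trans (ENNReal.tsum_le_tsum h2))

end Pool.Agent.H975.GMBGUP
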